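import Pool.Agent.Helper65.HF.StA

/-!
# RLO: the reverse lexicographic comparison of exponents
-/

namespace Pool.Agent.Helper37.HF

open Pool.Agent.Helper65.HF

theorem hRLO : Pool.Agent.Helper65.HF.sRLO := by
  intro N
  refine ⟨?_, ?_, ?_, ?_, ?_⟩
  · rintro m ⟨u, hu, -⟩
    exact lt_irrefl _ hu
  · rintro m b c ⟨u, hu, hu'⟩ ⟨v, hv, hv'⟩
    rcases lt_trichotomy u v with h | h | h
    · refine ⟨v, ?_, fun w hw => ?_⟩
      · rw [← hu' v h]
        exact hv
      · rw [hv' w hw, hu' w (h.trans hw)]
    · subst h
      exact ⟨u, hv.trans hu, fun w hw => by rw [hv' w hw, hu' w hw]⟩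
    · refine ⟨u, ?_, fun w hw => ?_⟩
      · rw [hv' u h]
        exact hu
      · rw [hv' w (h.trans hw), hu' w hw]
  · intro m b
    by_cases hmb : m = b
    · exact Or.inl hmb
    right
    classical
    have hne : (Finset.univ.filter fun u : Fin N => m u ≠ b u).Nonempty := by
      by_contra hcon
      rw [Finset.not_nonempty_iff_eq_empty, Finset.filter_eq_empty_iff] at hcon
      apply hmb
      ext u
      by_contra h
      exact hcon (Finset.mem_univ u) h
    set u := (Finset.univ.filter fun u : Fin N => m u ≠ b u).max' hne with hu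
    have hmem := (Finset.univ.filter fun u : Fin N => m u ≠ b u).max'_mem hne
    rw [← hu, Finset.mem_filter] at hmem
    have hgt : ∀ w, u < w → m w = b w := by
      intro w hw
      by_contra h
      have := (Finset.univ.filter fun u : Fin N => m u ≠ b u).le_max' w
        (Finset.mem_filter.2 ⟨Finset.mem_univ w, h⟩)
      exact absurd hw (not_lt.2 this)
    rcases lt_or_gt_of_ne hmem.2 with h | h
    · exact Or.inr ⟨u, h, fun w hw => hgt w hw⟩
    · exact Or.inl ⟨u, h, fun w hw => (hgt w hw).symm⟩
  · intro m b x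
    constructor
    · rintro ⟨u, hu, hu'⟩
      refine ⟨u, ?_, fun w hw => ?_⟩
      · simpa using hu
      · simpa using hu' w hw
    · rintro ⟨u, hu, hu'⟩
      refine ⟨u, ?_, fun w hw => ?_⟩
      · simpa using hu
      · simpa using hu' w hw
  · intro m s t hst hm
    refine ⟨t, ?_, fun w hw => ?_⟩
    · rw [Finsupp.add_apply, Finsupp.tsub_apply, Finsupp.single_eq_same,
        Finsupp.single_eq_of_ne (by exact hst.ne')]
      omega
    · rw [Finsupp.add_apply, Finsupp.tsub_apply, Finsupp.single_eq_of_ne (by exact hw.ne'),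
        Finsupp.single_eq_of_ne (by exact (hst.trans hw).ne')]
      omega

end Pool.Agent.Helper37.HF
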